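import Mathlib

namespace Pool.Agent.Results.MP_5a8271_pr.NoRate

open Set Filter Topology

/-- `f` is the density of a distribution of constant rate `α` on the poset `S` -/
def ConstRate {S : Type} [PartialOrder S] (f : S → ℝ) (α : ℝ) : Prop :=
  (∀ x, 0 ≤ f x) ∧ HasSum f 1 ∧ 0 < α ∧
    ∀ x, 0 < ∑' y : Ici x, f y ∧ f x = α * ∑' y : Ici x, f y

def P : Type := {p : ℕ × ℕ // p.2 ≤ p.1.factorial}

instance : PartialOrder P where
  le p q := p = q ∨ (q.1.2 = 0 ∧ p.1.1 ≤ q.1.1)
  le_refl p := Or.inl rfl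
  le_trans p q r := by
    rintro (rfl | h) (rfl | k)
    · exact Or.inl rfl
    · exact Or.inr k
    · exact Or.inr h
    · exact Or.inr ⟨k.1, h.2.trans k.2⟩
  le_antisymm p q := by
    rintro (rfl | h) (k | k)
    · rfl
    · rfl
    · exact k.symm
    · exact Subtype.ext (Prod.ext (h.2.antisymm k.2) (k.1.trans h.1.symm))

theorem le_iff (p q : P) : p ≤ q ↔ p = q ∨ (q.1.2 = 0 ∧ p.1.1 ≤ q.1.1) := Iff.rfl

def x (n : ℕ) : P := ⟨(n, 0), Nat.zero_le _⟩

theorem ici (p : P) (n : ℕ) (h : p = x (n - 1) ∧ 1 ≤ n ∨ p.1.1 = n) :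
    Ici p = insert p (Ici (x n)) := by
  ext q
  simp only [mem_Ici, mem_insert_iff, le_iff]
  obtain ⟨⟨a, b⟩, hp⟩ := p
  obtain ⟨⟨c, d⟩, hq⟩ := q
  simp only [x, P, Subtype.mk.injEq, Prod.mk.injEq] at h ⊢
  omega

theorem no_rate (f : P → ℝ) (α : ℝ) : ¬ ConstRate f α := by
  rintro ⟨h0, h1, hα, h⟩
  obtain ⟨F, hF⟩ : ∃ F : P → ℝ, F = fun p => ∑' y : Ici p, f y := ⟨_, rfl⟩
  have hFp : ∀ p, 0 < F p := fun p => by rw [hF]; exact (h p).1
  have hf : ∀ p, f p = α * F p := fun p => by rw [hF]; exact (h p).2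
  have hins : ∀ (p : P) (n : ℕ), (p = x (n - 1) ∧ 1 ≤ n ∨ p.1.1 = n) → p ∉ Ici (x n) →
      F p = f p + F (x n) := fun p n hp hn => by
    rw [hF]
    simp only
    rw [ici p n hp, insert_eq, Summable.tsum_union_disjoint (disjoint_singleton_left.2 hn)
      (h1.summable.subtype _) (h1.summable.subtype _), tsum_singleton p f]
  have hx : ∀ n, F (x (n + 1)) = (1 - α) * F (x n) := fun n => by
    have := hins (x n) (n + 1) (Or.inl ⟨rfl, by omega⟩) (by
      rintro (h | h)
      · have := congrArg (fun p : P => p.1.1) h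
        simp [x] at this
      · have := h.2
        simp [x] at this)
    rw [hf] at this
    linarith
  have hq : 0 < 1 - α := by
    have := hFp (x 1)
    rw [hx 0] at this
    exact (pos_iff_pos_of_mul_pos this).2 (hFp _)
  have hxn : ∀ n, F (x n) = (1 - α) ^ n * F (x 0) := fun n => by
    induction n with
    | zero => simp
    | succ n ih => rw [hx, ih]; ring
  have hb : ∀ n : ℕ, (n.factorial : ℝ) * (α * ((1 - α) ^ n * F (x 0))) ≤ 1 := fun n => by
    let g : Fin n.factorial → P := fun j => ⟨(n, j + 1), j.2⟩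
    have hg : Function.Injective g := fun i j e => by
      simp only [g, P, Subtype.mk.injEq, Prod.mk.injEq] at e
      exact Fin.ext (by omega)
    have e1 : ∑ p ∈ Finset.univ.map ⟨g, hg⟩, f p ≤ 1 :=
      sum_le_hasSum _ (fun p _ => h0 p) h1
    rw [Finset.sum_map] at e1
    refine le_trans ?_ e1
    have e2 : ∀ j ∈ Finset.univ, α * ((1 - α) ^ n * F (x 0)) ≤ f (g j) := fun j _ => by
      have := hins (g j) n (Or.inr rfl) (by
        rintro (h | h)
        · have := congrArg (fun p : P => p.1.2) h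
          simp [x, g] at this
        · have := h.1
          simp [g] at this)
      rw [hf (g j), this, ← hxn]
      have := h0 (g j)
      nlinarith
    have := Finset.card_nsmul_le_sum _ _ _ e2
    simpa using this
  have ht := FloorSemiring.tendsto_pow_div_factorial_atTop (1 - α)⁻¹
  obtain ⟨n, hn⟩ := (ht.eventually (gt_mem_nhds (mul_pos hα (hFp (x 0))))).exists
  have := hb n
  have hn0 : (0 : ℝ) < n.factorial := by positivity
  have hp : 0 < (1 - α) ^ n := pow_pos hq n
  rw [div_lt_iff₀ hn0, inv_pow, inv_lt_iff_one_lt_mul₀ hp] at hn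
  nlinarith

theorem result : ∃ (S : Type) (_ : PartialOrder S), Nonempty S ∧ Countable S ∧
    (∀ a : S, (Iic a).Finite) ∧ (∀ a : S, ¬ IsMax a) ∧
    ¬ ∃ (f : S → ℝ) (α : ℝ), ConstRate f α := by
  refine ⟨P, inferInstance, ⟨x 0⟩, inferInstanceAs (Countable (Subtype _)), fun a => ?_,
    fun a ha => ?_, fun ⟨f, α, h⟩ => no_rate f α h⟩
  · refine Set.Finite.of_finite_image (f := Subtype.val)
      (((finite_Iic a.1.1).prod (finite_Iic a.1.1.factorial)).subset ?_) Subtype.val_injective.injOn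
    rintro _ ⟨p, hp, rfl⟩
    have h1 : p.1.1 ≤ a.1.1 := by
      rcases hp with rfl | h
      · exact le_rfl
      · exact h.2
    exact ⟨h1, p.2.trans (Nat.factorial_le h1)⟩
  · have h1 : a ≤ x (a.1.1 + 1) := Or.inr ⟨rfl, Nat.le_succ _⟩
    rcases ha h1 with h | h
    · have := congrArg (fun p : P => p.1.1) h
      simp [x] at this
    · have := h.2
      simp [x] at this

end Pool.Agent.Results.MP_5a8271_pr.NoRate
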